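import Pool.Agent.H.MP_c10209_ag.F

namespace Pool.Agent.Results.MP_c10209_ag.PathCounterexample

open MvPolynomial Pool.Agent.H.MP_c10209_ag

theorem result :
    (∀ ε : Fin 4 → Bool,
      IsCM (ChartRing ε (vanishingIdeal ℂ (XS {{0, 1}, {1, 2}, {2, 3}})))) ∧
    ∀ (A : Type) [CommRing A] [IsDomain A] [Algebra ℂ A] (I : Ideal (MvPolynomial V A)),
      MultiHom I → (∀ ε : Fin 4 → Bool, Module.Flat A (ChartRing ε I)) →
      ∀ φ₀ : A →ₐ[ℂ] ℂ, fibre I φ₀ = XS {{0, 1}, {1, 2}, {2, 3}} →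
      ∀ φ : A →ₐ[ℂ] ℂ, ¬ (vanishingIdeal ℂ (fibre I φ)).IsPrime :=
  ⟨isCM_XS, fun _ _ _ _ _ hI hflat φ₀ h0 φ => no_deformation hI hflat φ₀ φ h0⟩

end Pool.Agent.Results.MP_c10209_ag.PathCounterexample
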